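import Pool.Agent.Y600.FB.Stm4

/-!
# No Turing reduction between the constraint satisfaction problems of two machines (job FB-NOT4)

(helper275, for helper600; adapted from `t_NOTLE` of helper686.)
-/

set_option autoImplicit false

namespace Pool.Agent.Y275.FB

open Function Pool.Agent.NPC Pool.Agent.H660R2.NX
open Pool.Agent.H639R2.NTP.C5 (allL mem_allL)
open Pool.Agent.H639R2.NTP (exists_pow_bound)
open Pool.Agent.H593R3.FBC
open Pool.Agent.Y600.FB
open Pool.Agent.H620R2.Gauge (Alg IsP IsFP Oracle)

attribute [local irreducible] unpair

theorem pair_ne (u v : List Bool) : pairBits u v ≠ [] := by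
  unfold pairBits
  simp

/-- The run of the oracle algorithm and the rounds of the simulation. -/
theorem run_anT (M : Alg) (A : Oracle) (z : List Bool) (x : ℕ) (s y : List Bool)
    (g : List Bool → List Bool) (R : ℕ)
    (hFU : ∀ a, FU z x (pairBits y a) =
      if (M.D (pairBits y a)).head? = some false then
        false :: g (M.D (pairBits y a)).tail else M.D (pairBits y a))
    (hA : ∀ i, i < R → ∀ q, M.D (pairBits y (anT z x s y i)) = false :: q →
      (KS s (g q) ↔ A q = true)) :
    ∀ (n i : ℕ) (o : List Bool), i + n ≤ R → M.run A y n (anT z x s y i) = some o →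
      (FU z x (pairBits y (anT z x s y R)) = [true, true] ↔ o = [true])
  | 0, i, o, _, h => by simp [Alg.run] at h
  | n + 1, i, o, hi, h => by
    have hsucc : anT z x s y (i + 1) = stT z x s y (anT z x s y i) := by
      unfold anT
      exact Function.iterate_succ_apply' _ _ _
    have hR : anT z x s y R = (stT z x s y)^[R - i] (anT z x s y i) := by
      unfold anT
      rw [← Function.iterate_add_apply]
      congr 2
      omega
    unfold Alg.run at h
    rcases hD : M.D (pairBits y (anT z x s y i)) with _ | ⟨b, q⟩
    · rw [hD] at h
      have h0 : FU z x (pairBits y (anT z x s y i)) = [] := by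
        rw [hFU, hD]
        simp
      have hs : stT z x s y (anT z x s y i) = anT z x s y i := by
        unfold stT
        rw [h0]
        simp
      rw [hR, Function.iterate_fixed hs, h0]
      have ho : o = [] := by simpa using h.symm
      rw [ho]
      simp
    · rw [hD] at h
      cases b with
      | true =>
        have h0 : FU z x (pairBits y (anT z x s y i)) = true :: q := by
          rw [hFU, hD]
          simp
        have hs : stT z x s y (anT z x s y i) = anT z x s y i := by
          unfold stT
          rw [h0]
          simp
        rw [hR, Function.iterate_fixed hs, h0]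
        have ho : o = q := by simpa using h.symm
        rw [ho]
        simp
      | false =>
        have h0 : FU z x (pairBits y (anT z x s y i)) = false :: g q := by
          rw [hFU, hD]
          simp
        have h1 := hA i (by omega) q hD
        have hs : stT z x s y (anT z x s y i) = anT z x s y i ++ [A q] := by
          unfold stT
          rw [h0]
          rw [if_pos (by simp)]
          congr 2
          rw [List.tail_cons]
          classical
          by_cases h2 : A q = true
          · rw [h2]
            exact decide_eq_true (h1.2 h2)
          · have h3 : A q = false := by simpa using h2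
            rw [h3]
            exact decide_eq_false fun h4 => h2 (h1.1 h4)
        have h2 : M.run A y n (anT z x s y (i + 1)) = some o := by
          rw [hsucc, hs]
          exact h
        exact run_anT M A z x s y g R hFU hA n (i + 1) o (by omega) h2

theorem t_NOT4 : S_NOT4 := by
  intro m m' hm hm' h hR
  obtain ⟨V, ⟨M, hM⟩, hV⟩ := hR
  set g : List Bool → KI := fun y => (unbits Inst y).elim none (red m') with hg
  have hgp : Poly g := by
    have h1 := poly_red hm'
    have h2 : Poly (unbits Inst) := poly_unbits
    rw [hg]
    fun_prop
  have hgb : Poly (fun y => bits (g y)) :=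
    poly_of_polyTime (polyTime_bits hgp)
  have hD : Poly M.D := poly_of_polyTime M.poly
  have h1 : PolyTime (fun v => if (M.D v).head? = some false then
      false :: bits (g (M.D v).tail) else M.D v) := by
    refine polyTime_of_poly' (Poly.ite (Poly.decide_eq (Poly.head? hD) (NPC.Poly.const _))
      (Poly.cons (NPC.Poly.const _) (hgb.comp (Poly.tail hD))) hD)
  obtain ⟨z, k0, hz⟩ := exists_FU h1
  obtain ⟨k1, hk1⟩ := exists_pow_bound M.p
  obtain ⟨x, N, hx, hG, hs⟩ := h (max k0 (max k1 (Encodable.encode z + 1)))
  set s := (List.range x).map m'.flag with hs'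
  obtain ⟨v, _, h2, hxn, hnN, h3, h4⟩ := hG (Encodable.encode z)
    (List.mem_range.2 (by omega)) s (mem_allL.2 (by simp [hs']))
  rw [bdB_iff] at h2
  rw [str_encode] at h3 h4
  rw [← sat_iff h2] at h4
  set y := bits (gI (decF (str v))) with hy
  set R := y.length ^ x + x with hRd
  have hFU : ∀ a, FU z x (pairBits y a) =
      if (M.D (pairBits y a)).head? = some false then
        false :: bits (g (M.D (pairBits y a)).tail) else M.D (pairBits y a) := fun a =>
    hz x _ (by omega) (pair_ne _ _)
  have h9 : ∀ u : List Bool, u ∈ lang (CSP (tau m') (bigR m')) ↔ KSat m'.flag (g u) := by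
    intro u
    have e : u ∈ lang (CSP (tau m') (bigR m')) ↔
        ∃ I, unbits Inst u = some I ∧ CSP (tau m') (bigR m') I := mem_lang_iff
    rw [e]
    change _ ↔ KSat m'.flag ((unbits Inst u).elim none (red m'))
    cases unbits Inst u with
    | none => simp [KSat]
    | some I =>
      simp only [Option.elim_some, Option.some.injEq, exists_eq_left']
      exact csp_red hm' I
  have hA : ∀ i, i < R → ∀ q, M.D (pairBits y (anT z x s y i)) = false :: q →
      (KS s (bits (g q)) ↔ chi (lang (CSP (tau m') (bigR m'))) q = true) := by
    intro i hi q hq
    have h0 : FU z x (pairBits y (anT z x s y i)) = false :: bits (g q) := by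
      rw [hFU, hq]
      simp
    have h5 := h3 i (List.mem_range.2 hi)
    rw [h0, List.tail_cons, nsB_iff, decK_bits] at h5
    rw [KS_iff _ _ (decK_length _), decK_bits]
    have h6 : KSat (fin s) (g q) ↔ KSat m'.flag (g q) := by
      refine ksat_congr fun l hl c hc n hn => ?_
      have h6 := h5 n (by
        rw [hl]
        simp only [nsL, Option.elim_some, List.mem_flatMap]
        exact ⟨c, hc, hn⟩)
      by_cases hnx : n < x
      · unfold fin
        rw [List.getD_eq_getElem _ _ (by simpa [hs'] using hnx)]
        simp [hs']
      · rw [(hs n (by omega) h6).2]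
        unfold fin
        rw [List.getD_eq_default _ _ (by simp [hs']; omega)]
    rw [h6, ← h9]
    unfold chi
    classical
    rw [decide_eq_true_iff]
  have hlen : 1 ≤ y.length := List.length_pos_iff.2 (bits_ne_nil _)
  have hbd : 0 + M.p.eval y.length ≤ R := by
    rw [zero_add]
    refine (hk1 _).trans ?_
    have h5 : y.length ^ k1 ≤ y.length ^ x := Nat.pow_le_pow_right hlen (by omega)
    omega
  have h10 := run_anT M (chi (lang (CSP (tau m') (bigR m')))) z x s y (fun q => bits (g q)) R
    hFU hA (M.p.eval y.length) 0 (V y) hbd (hM y)
  rw [h10, ← hV, hy, bits_mem_lang, csp_gI hm h2, (hs _ hxn hnN).1] at h4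
  simp only [true_implies] at h4
  tauto

end Pool.Agent.Y275.FB
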